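import Pool.Agent.W2helper74.SOS.Stm4
import Pool.Agent.W2helper74.SOS.L
import Pool.Agent.W2helper19.SOS.J3
import Pool.Agent.W2helper12.SOS.J1

/-!
# MP_ce7760_an, project S1FULL, piece P6: dimensions (`StarSyz`, `PS`, `NP`, `UpDim`)
-/

open MvPolynomial

namespace Pool.Agent.W2helper5.SOS

open Pool.Agent.W2helper74.SOS Pool.Agent.W2helper22.SOSG

/-! ### the map onto `up E` -/

/-- `c ↦ ∑ X_k c_k` -/
noncomputable def upMap {n : ℕ} (E : Submodule ℂ (Pol n)) : (Fin n → E) →ₗ[ℂ] Pol n :=
  ∑ k, ((LinearMap.mulLeft ℂ (X k : Pol n)).comp E.subtype).comp (LinearMap.proj k)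

lemma upMap_apply {n : ℕ} (E : Submodule ℂ (Pol n)) (c : Fin n → E) :
    upMap E c = ∑ k, X k * (c k : Pol n) := by
  simp [upMap]

lemma range_upMap {n : ℕ} (E : Submodule ℂ (Pol n)) : LinearMap.range (upMap E) = up E := by
  classical
  apply le_antisymm
  · rintro _ ⟨c, rfl⟩
    rw [upMap_apply]
    exact Submodule.sum_mem _ fun k _ => Submodule.subset_span ⟨k, c k, (c k).2, rfl⟩
  · unfold up
    rw [Submodule.span_le]
    rintro _ ⟨k, f, hf, rfl⟩
    refine ⟨Pi.single k ⟨f, hf⟩, ?_⟩
    rw [upMap_apply, Finset.sum_eq_single k]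
    · simp
    · intro b _ hb
      simp [hb]
    · simp

lemma up_finite {n : ℕ} (E : Submodule ℂ (Pol n)) [Module.Finite ℂ E] :
    Module.Finite ℂ (up E) := by
  rw [← range_upMap]
  infer_instance

lemma finrank_up_le {n : ℕ} (E : Submodule ℂ (Pol n)) [Module.Finite ℂ E] :
    Module.finrank ℂ (up E) ≤ n * Module.finrank ℂ E := by
  rw [← range_upMap]
  refine (LinearMap.finrank_range_le _).trans ?_
  rw [Module.finrank_pi_fintype]
  simp

/-- (P6a) -/
theorem starSyz : StarSyz := by
  classical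
  intro n E hE h L hh hL
  obtain ⟨J, hJ⟩ : ∃ J, J = Module.finrank ℂ L := ⟨_, rfl⟩
  let b : Module.Basis (Fin J) ℂ L := (Module.finBasis ℂ L).reindex (finCongr hJ.symm)
  let w : Fin J → Fin n → ℂ := fun i => (b i : Fin n → ℂ)
  have hwL : ∀ i, w i ∈ L := fun i => (b i).2
  have hwi : LinearIndependent ℂ w :=
    b.linearIndependent.map' L.subtype (Submodule.ker_subtype L)
  let g : Fin J → E := fun l => ⟨h * lf (w l), hL _ (hwL l)⟩
  have hg : LinearIndependent ℂ g := by
    rw [Fintype.linearIndependent_iff]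
    intro c hc
    have h1 := congrArg (fun t : E => (t : Pol n)) hc
    have h2 : h * lf (∑ l, c l • w l) = 0 := by
      rw [lf_sum_smul, Finset.mul_sum]
      simp only [Submodule.coe_sum, Submodule.coe_smul, ZeroMemClass.coe_zero] at h1
      rw [← h1]
      refine Finset.sum_congr rfl fun l _ => ?_
      simp only [g]
      rw [smul_eq_C_mul]
      ring
    have h3 : (∑ l, c l • w l) = 0 := by
      by_contra h4
      exact mul_ne_zero hh (Pool.Agent.W2helper19.SOS.lf_ne_zero h4) h2
    exact Fintype.linearIndependent_iff.mp hwi c h3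
  let Ψ : (((l : Fin J) × Fin l) → ℂ) →ₗ[ℂ] (Fin n → E) :=
    { toFun := fun c k => ∑ l, (∑ i, anti c i l * w i k) • g l
      map_add' := by
        intro c c'
        funext k
        simp only [Pi.add_apply]
        rw [← Finset.sum_add_distrib]
        refine Finset.sum_congr rfl fun l _ => ?_
        rw [← add_smul]
        congr 1
        rw [← Finset.sum_add_distrib]
        refine Finset.sum_congr rfl fun i _ => ?_
        rw [← add_mul]
        congr 1
        unfold anti
        split_ifs <;> simp <;> ring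
      map_smul' := by
        intro t c
        funext k
        simp only [Pi.smul_apply, RingHom.id_apply]
        rw [Finset.smul_sum]
        refine Finset.sum_congr rfl fun l _ => ?_
        rw [smul_smul]
        congr 1
        rw [Finset.mul_sum]
        refine Finset.sum_congr rfl fun i _ => ?_
        rw [← mul_assoc]
        congr 1
        unfold anti
        split_ifs <;> simp }
  have hΨ : ∀ c k, Ψ c k = ∑ l, (∑ i, anti c i l * w i k) • g l := fun _ _ => rfl
  have hinj : Function.Injective Ψ := by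
    rw [injective_iff_map_eq_zero]
    intro c hc
    have h1 : ∀ l i, anti c i l = 0 := by
      intro l
      apply Fintype.linearIndependent_iff.mp hwi
      funext k
      have h2 := congrFun hc k
      rw [hΨ] at h2
      have h3 := Fintype.linearIndependent_iff.mp hg _ h2 l
      simpa only [Finset.sum_apply, Pi.smul_apply, smul_eq_mul, Pi.zero_apply] using h3
    funext ⟨l, i⟩
    have h2 := h1 l ⟨i, by omega⟩
    unfold anti at h2
    rw [dif_pos i.2] at h2
    exact h2
  have hcomp : ∀ c, upMap E (Ψ c) = 0 := by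
    intro c
    rw [upMap_apply]
    have h1 : ∀ k, X k * ((Ψ c k : E) : Pol n) =
        ∑ l, C (∑ i, anti c i l * w i k) * (X k * (h * lf (w l))) := by
      intro k
      rw [hΨ, Submodule.coe_sum, Finset.mul_sum]
      refine Finset.sum_congr rfl fun l _ => ?_
      rw [Submodule.coe_smul, smul_eq_C_mul]
      simp only [g]
      ring
    simp only [h1]
    rw [Finset.sum_comm]
    have h2 : ∀ l, ∑ k, C (∑ i, anti c i l * w i k) * (X k * (h * lf (w l)) : Pol n) =
        h * ∑ i, C (anti c i l) * (lf (w i) * lf (w l)) := by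
      intro l
      have h3 : ∑ k, C (∑ i, anti c i l * w i k) * (X k * (h * lf (w l)) : Pol n) =
          lf (∑ i, anti c i l • w i) * (h * lf (w l)) := by
        generalize h * lf (w l) = q
        rw [lf, Finset.sum_mul]
        refine Finset.sum_congr rfl fun k _ => ?_
        simp only [Finset.sum_apply, Pi.smul_apply, smul_eq_mul]
        ring
      rw [h3, lf_sum_smul, Finset.sum_mul, Finset.mul_sum]
      refine Finset.sum_congr rfl fun i _ => ?_
      ring
    simp only [h2]
    rw [← Finset.mul_sum]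
    have h3 : ∑ l, ∑ i, (C (anti c i l) : Pol n) * (lf (w i) * lf (w l)) =
        - ∑ l, ∑ i, (C (anti c i l) : Pol n) * (lf (w i) * lf (w l)) := by
      conv_lhs => rw [Finset.sum_comm]
      rw [← Finset.sum_neg_distrib]
      refine Finset.sum_congr rfl fun l _ => ?_
      rw [← Finset.sum_neg_distrib]
      refine Finset.sum_congr rfl fun i _ => ?_
      rw [anti_swap c l i, map_neg]
      ring
    rw [self_eq_neg.mp h3, mul_zero]
  have hker : LinearMap.range Ψ ≤ LinearMap.ker (upMap E) := by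
    rintro _ ⟨c, rfl⟩
    exact LinearMap.mem_ker.mpr (hcomp c)
  have h1 := Submodule.finrank_mono hker
  rw [LinearMap.finrank_range_of_inj hinj] at h1
  have h2 := LinearMap.finrank_range_add_finrank_ker (upMap E)
  rw [range_upMap, Module.finrank_pi_fintype] at h2
  simp only [Finset.sum_const, Finset.card_univ, Fintype.card_fin, smul_eq_mul] at h2
  rw [Module.finrank_fintype_fun_eq_card, Fintype.card_sigma] at h1
  simp only [Fintype.card_fin] at h1
  rw [Fin.sum_univ_eq_sum_range (fun i => i) J, Finset.sum_range_id] at h1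
  rw [← hJ]
  omega

/-! ### psd quotients -/

/-- (P6b) -/
theorem ps : PS := by
  intro n m r D d hd
  have h1 : up d.E = d.V := by
    apply le_antisymm
    · unfold up
      rw [Submodule.span_le]
      rintro _ ⟨k, f, hf, rfl⟩
      have := Pool.Agent.W2helper22.SOSG.lf_mul_mem d hd (Pi.single k 1) hf
      rwa [Pool.Agent.W2helper19.SOS.lf_single] at this
    · refine (V_le_span d).trans ?_
      rw [Submodule.span_le]
      rintro _ ⟨q, rfl⟩
      exact Submodule.subset_span ⟨q.1, d.e q.2, Submodule.subset_span ⟨q.2, rfl⟩, rfl⟩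
  rw [h1, finrank_V]

/-! ### quotients that are not psd -/

/-- the norms of a functional -/
lemma phi_id {n m r D : ℕ} (d : Dat n m r D) (φ : Pol n →ₗ[ℂ] ℂ) :
    ∑ j, φ (d.p j) * star (φ (d.p j)) =
      ∑ k, ∑ l, (∑ i, d.a i l * φ (X k * d.e i)) * star (φ (X k * d.e l)) := by
  have h1 : ∀ w : Fin n → ℂ, ∑ j, star (eval w (d.p j)) * φ (d.p j) =
      ∑ k, ∑ l, star (w k * eval w (d.e l)) * (∑ i, d.a i l * φ (X k * d.e i)) := by
    intro w
    have h := congrArg φ (main_pol d w)
    simpa only [map_sum, map_smul, smul_eq_mul] using h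
  have h2 : ∑ j, C (star (φ (d.p j))) * d.p j =
      ∑ k, ∑ l, C (star (∑ i, d.a i l * φ (X k * d.e i))) * (X k * d.e l) := by
    apply MvPolynomial.funext
    intro w
    have h := congrArg star (h1 w)
    simp only [star_sum, star_mul, star_star] at h
    simp only [map_sum, map_mul, eval_C, eval_X]
    rw [h]
    refine Finset.sum_congr rfl fun k _ => Finset.sum_congr rfl fun l _ => ?_
    simp only [star_sum, star_mul]
  have h3 := congrArg φ h2
  simp only [map_sum, ← smul_eq_C_mul, map_smul, smul_eq_mul] at h3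
  have h4 := congrArg star h3
  simp only [star_sum, star_mul, star_star] at h4
  rw [show (∑ j, φ (d.p j) * star (φ (d.p j))) = ∑ j, star (φ (d.p j)) * φ (d.p j) from
    Finset.sum_congr rfl fun j _ => mul_comm _ _, h4]
  refine Finset.sum_congr rfl fun k _ => Finset.sum_congr rfl fun l _ => ?_
  ring

/-- diagonalisation of `a`: a basis `f` of `E` and real numbers `μ i ≠ 0` -/
lemma diag {n m r D : ℕ} (d : Dat n m r D) : ∃ (f : Fin r → Pol n) (μ : Fin r → ℝ),
    (∀ i, μ i ≠ 0) ∧ LinearIndependent ℂ f ∧ Submodule.span ℂ (Set.range f) = d.E ∧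
    (∀ φ : Pol n →ₗ[ℂ] ℂ, ∑ j, ‖φ (d.p j)‖ ^ 2 = ∑ k, ∑ i, μ i * ‖φ (X k * f i)‖ ^ 2) ∧
    ((∀ i, 0 < μ i) → d.Psd) := by
  classical
  let hc := d.a_herm
  let U : Matrix (Fin r) (Fin r) ℂ := (hc.eigenvectorUnitary : Matrix (Fin r) (Fin r) ℂ)
  have hU : ∀ i l, d.a i l = ∑ k, (hc.eigenvalues k : ℂ) * U i k * star (U l k) := by
    intro α β
    conv_lhs => rw [hc.spectral_theorem]
    rw [Unitary.conjStarAlgAut_apply, Matrix.mul_apply]
    refine Finset.sum_congr rfl (fun k _ => ?_)
    rw [Matrix.mul_diagonal, Matrix.star_apply]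
    simp only [Function.comp_apply]
    rw [mul_comm ((hc.eigenvectorUnitary : Matrix (Fin r) (Fin r) ℂ) α k)]
    rfl
  have hquad : ∀ x : Fin r → ℂ, ∑ l, (∑ i, d.a i l * x i) * star (x l) =
      ((∑ k, hc.eigenvalues k * ‖∑ i, U i k * x i‖ ^ 2 : ℝ) : ℂ) := by
    intro x
    have h1 : ∀ k, ((hc.eigenvalues k * ‖∑ i, U i k * x i‖ ^ 2 : ℝ) : ℂ) =
        ∑ l, ∑ i, (hc.eigenvalues k : ℂ) * U i k * star (U l k) * x i * star (x l) := by
      intro k
      have h2 : ((‖∑ i, U i k * x i‖ ^ 2 : ℝ) : ℂ) =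
          (∑ i, U i k * x i) * star (∑ i, U i k * x i) := by
        rw [Complex.star_def, Complex.mul_conj, Complex.normSq_eq_norm_sq]
      rw [Complex.ofReal_mul, h2, star_sum, Finset.sum_mul_sum, Finset.sum_comm, Finset.mul_sum]
      refine Finset.sum_congr rfl fun l _ => ?_
      rw [Finset.mul_sum]
      refine Finset.sum_congr rfl fun i _ => ?_
      rw [star_mul']
      ring
    rw [Complex.ofReal_sum]
    simp only [h1]
    rw [Finset.sum_comm]
    refine Finset.sum_congr rfl fun l _ => ?_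
    rw [Finset.sum_comm, Finset.sum_mul]
    refine Finset.sum_congr rfl fun i _ => ?_
    rw [hU, Finset.sum_mul, Finset.sum_mul]
  let f : Fin r → Pol n := fun k => ∑ i, U i k • d.e i
  have hφf : ∀ (φ : Pol n →ₗ[ℂ] ℂ) (k : Fin n) (i : Fin r),
      φ (X k * f i) = ∑ l, U l i * φ (X k * d.e l) := by
    intro φ k i
    simp only [f]
    rw [Finset.mul_sum, map_sum]
    refine Finset.sum_congr rfl fun l _ => ?_
    rw [mul_smul_comm, map_smul, smul_eq_mul]
  have hfi : LinearIndependent ℂ f := by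
    rw [Fintype.linearIndependent_iff]
    intro c hcf
    have h1 : ∑ i, (∑ k, U i k * c k) • d.e i = 0 := by
      rw [← hcf]
      simp only [f, Finset.smul_sum, Finset.sum_smul, smul_smul]
      rw [Finset.sum_comm]
      refine Finset.sum_congr rfl fun k _ => Finset.sum_congr rfl fun i _ => ?_
      rw [mul_comm]
    have h2 := Fintype.linearIndependent_iff.mp d.e_ind _ h1
    have h3 : U.mulVec c = 0 := funext h2
    have h4 : star U * U = 1 := Unitary.coe_star_mul_self hc.eigenvectorUnitary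
    have h5 : c = 0 := by
      rw [← Matrix.one_mulVec c, ← h4, ← Matrix.mulVec_mulVec, h3, Matrix.mulVec_zero]
    intro i
    rw [h5]
    rfl
  have hfE : Submodule.span ℂ (Set.range f) ≤ d.E := by
    rw [Submodule.span_le]
    rintro _ ⟨k, rfl⟩
    exact Submodule.sum_mem _ fun i _ =>
      Submodule.smul_mem _ _ (Submodule.subset_span ⟨i, rfl⟩)
  have hfinE : Module.Finite ℂ d.E := Module.Finite.span_of_finite ℂ (Set.finite_range _)
  refine ⟨f, hc.eigenvalues, ?_, hfi, ?_, ?_, ?_⟩
  · have h1 := hc.det_eq_prod_eigenvalues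
    have h2 : d.a.det ≠ 0 := d.a_unit.ne_zero
    intro i hi
    apply h2
    rw [h1]
    exact Finset.prod_eq_zero (Finset.mem_univ i) (by rw [hi]; simp)
  · apply Submodule.eq_of_le_of_finrank_le hfE
    rw [finrank_E, finrank_span_eq_card hfi, Fintype.card_fin]
  · intro φ
    have h1 := phi_id d φ
    simp only [hquad (fun i => φ (X _ * d.e i)), ← hφf] at h1
    have h2 : ∑ j, φ (d.p j) * star (φ (d.p j)) = ((∑ j, ‖φ (d.p j)‖ ^ 2 : ℝ) : ℂ) := by
      rw [Complex.ofReal_sum]
      refine Finset.sum_congr rfl fun j _ => ?_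
      rw [Complex.star_def, Complex.mul_conj, Complex.normSq_eq_norm_sq]
    rw [h2, ← Complex.ofReal_sum] at h1
    exact Complex.ofReal_injective h1
  · intro hpos x
    have h1 : ∑ i, ∑ l, d.a i l * x i * star (x l) =
        ((∑ k, hc.eigenvalues k * ‖∑ i, U i k * x i‖ ^ 2 : ℝ) : ℂ) := by
      rw [← hquad x, Finset.sum_comm]
      refine Finset.sum_congr rfl fun l _ => ?_
      rw [Finset.sum_mul]
    rw [h1, Complex.ofReal_re]
    exact Finset.sum_nonneg fun k _ => mul_nonneg (hpos k).le (by positivity)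

lemma up_mono {n : ℕ} {E F : Submodule ℂ (Pol n)} (h : E ≤ F) : up E ≤ up F := by
  unfold up
  apply Submodule.span_mono
  rintro _ ⟨k, f, hf, rfl⟩
  exact ⟨k, f, h hf, rfl⟩

lemma up_span_le {n : ℕ} {ι : Type*} (f : ι → Pol n) (W : Submodule ℂ (Pol n))
    (h : ∀ i k, X k * f i ∈ W) : up (Submodule.span ℂ (Set.range f)) ≤ W := by
  unfold up
  rw [Submodule.span_le]
  rintro _ ⟨k, g, hg, rfl⟩
  induction hg using Submodule.span_induction with
  | mem x hx =>
    obtain ⟨i, rfl⟩ := hx
    exact h i k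
  | zero => rw [mul_zero]; exact W.zero_mem
  | add x y _ _ hx hy => rw [mul_add]; exact W.add_mem hx hy
  | smul c x _ hx => rw [mul_smul_comm]; exact W.smul_mem _ hx

lemma X_mul_mem_up {n : ℕ} {E : Submodule ℂ (Pol n)} {f : Pol n} (k : Fin n) (hf : f ∈ E) :
    X k * f ∈ up E := Submodule.subset_span ⟨k, f, hf, rfl⟩

/-- (P6c) -/
theorem np : NP := by
  classical
  intro n m r D d hd
  obtain ⟨f, μ, hμ, hfi, hfE, hφ, hpsd⟩ := diag d
  have hfinE : Module.Finite ℂ d.E := Module.Finite.span_of_finite ℂ (Set.finite_range _)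
  have hfinV : Module.Finite ℂ d.V := Module.Finite.span_of_finite ℂ (Set.finite_range _)
  -- the positive and the negative part
  let Ep : Submodule ℂ (Pol n) := Submodule.span ℂ (Set.range fun i : {i // 0 < μ i} => f i)
  let Em : Submodule ℂ (Pol n) := Submodule.span ℂ (Set.range fun i : {i // ¬ 0 < μ i} => f i)
  have : Module.Finite ℂ Ep := Module.Finite.span_of_finite ℂ (Set.finite_range _)
  have : Module.Finite ℂ Em := Module.Finite.span_of_finite ℂ (Set.finite_range _)
  have := up_finite Ep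
  have := up_finite Em
  have hEp : Ep ≤ d.E := by
    rw [← hfE]
    exact Submodule.span_mono (by rintro _ ⟨i, rfl⟩; exact ⟨i, rfl⟩)
  have hcard : Fintype.card {i // 0 < μ i} + Fintype.card {i // ¬ 0 < μ i} = r := by
    have := Fintype.card_subtype_compl (fun i => 0 < μ i)
    have h2 := Fintype.card_subtype_le (fun i => 0 < μ i)
    rw [Fintype.card_fin] at this h2
    omega
  have hfp : Module.finrank ℂ Ep = Fintype.card {i // 0 < μ i} :=
    finrank_span_eq_card (hfi.comp _ Subtype.val_injective)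
  have hfm : Module.finrank ℂ Em = Fintype.card {i // ¬ 0 < μ i} :=
    finrank_span_eq_card (hfi.comp _ Subtype.val_injective)
  obtain ⟨x, hx⟩ : ∃ x, x = Fintype.card {i // ¬ 0 < μ i} := ⟨_, rfl⟩
  have hneg : ∀ i : {i // ¬ 0 < μ i}, μ i < 0 := fun i =>
    lt_of_le_of_ne (not_lt.1 i.2) (hμ i)
  -- (i)
  have h1 : up Em ≤ up Ep := by
    apply up_span_le
    intro i k
    by_contra hc
    obtain ⟨φ, hφ1, hker⟩ := Submodule.exists_le_ker_of_notMem hc
    have h2 : ∀ (l : Fin r) (k : Fin n), 0 < μ l → φ (X k * f l) = 0 := fun l k hl =>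
      LinearMap.mem_ker.mp (hker (X_mul_mem_up k (Submodule.subset_span ⟨⟨l, hl⟩, rfl⟩)))
    have h3 := hφ φ
    have h4 : 0 ≤ ∑ j, ‖φ (d.p j)‖ ^ 2 := Finset.sum_nonneg fun _ _ => by positivity
    rw [h3] at h4
    have h5 : ∀ k l, μ l * ‖φ (X k * f l)‖ ^ 2 ≤ 0 := by
      intro k l
      by_cases hl : 0 < μ l
      · rw [h2 l k hl]; simp
      · exact mul_nonpos_of_nonpos_of_nonneg (not_lt.1 hl) (by positivity)
    have h6 : ∑ k, ∑ l, μ l * ‖φ (X k * f l)‖ ^ 2 < 0 := by
      refine Finset.sum_neg' (fun k _ => Finset.sum_nonpos fun l _ => h5 k l)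
        ⟨k, Finset.mem_univ _, ?_⟩
      refine Finset.sum_neg' (fun l _ => h5 k l) ⟨i, Finset.mem_univ _, ?_⟩
      have h7 : 0 < ‖φ (X k * f i)‖ := norm_pos_iff.2 hφ1
      exact mul_neg_of_neg_of_pos (hneg i) (by positivity)
    linarith
  -- (ii)
  have h2 : up d.E ≤ d.V ⊔ up Em := by
    rw [← hfE]
    apply up_span_le
    intro i k
    by_contra hc
    obtain ⟨φ, hφ1, hker⟩ := Submodule.exists_le_ker_of_notMem hc
    have h2 : ∀ (l : Fin r) (k : Fin n), ¬ 0 < μ l → φ (X k * f l) = 0 := fun l k hl =>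
      LinearMap.mem_ker.mp (hker (Submodule.mem_sup_right
        (X_mul_mem_up k (Submodule.subset_span ⟨⟨l, hl⟩, rfl⟩))))
    have h0 : ∀ j, φ (d.p j) = 0 := fun j =>
      LinearMap.mem_ker.mp (hker (Submodule.mem_sup_left (Submodule.subset_span ⟨j, rfl⟩)))
    have h3 := hφ φ
    have h4 : ∑ j, ‖φ (d.p j)‖ ^ 2 = 0 := Finset.sum_eq_zero fun j _ => by rw [h0 j]; simp
    rw [h3] at h4
    have h5 : ∀ k l, 0 ≤ μ l * ‖φ (X k * f l)‖ ^ 2 := by
      intro k l
      by_cases hl : 0 < μ l
      · positivity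
      · rw [h2 l k hl]; simp
    have hi : 0 < μ i := by
      by_contra hi
      exact hφ1 (h2 i k hi)
    have h6 : 0 < ∑ k, ∑ l, μ l * ‖φ (X k * f l)‖ ^ 2 := by
      refine Finset.sum_pos' (fun k _ => Finset.sum_nonneg fun l _ => h5 k l)
        ⟨k, Finset.mem_univ _, ?_⟩
      refine Finset.sum_pos' (fun l _ => h5 k l) ⟨i, Finset.mem_univ _, ?_⟩
      have h7 : 0 < ‖φ (X k * f i)‖ := norm_pos_iff.2 hφ1
      positivity
    linarith
  have h3 : up d.E ≤ up Ep := by
    rw [← hfE]
    apply up_span_le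
    intro i k
    by_cases hi : 0 < μ i
    · exact X_mul_mem_up k (Submodule.subset_span ⟨⟨i, hi⟩, rfl⟩)
    · exact h1 (X_mul_mem_up k (Submodule.subset_span ⟨⟨i, hi⟩, rfl⟩))
  have h4 : Module.finrank ℂ (up d.E) ≤ m + n * x := by
    have a1 := Submodule.finrank_mono h2
    have a2 := Submodule.finrank_add_le_finrank_add_finrank d.V (up Em)
    have a3 := finrank_up_le Em
    rw [finrank_V] at a2
    rw [hfm, ← hx] at a3
    omega
  have h5 : Module.finrank ℂ (up d.E) = Module.finrank ℂ (up Ep) := by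
    rw [le_antisymm h3 (up_mono hEp)]
  have hr : n * r = n * Fintype.card {i // 0 < μ i} + n * x := by
    rw [hx, ← mul_add, hcard]
  refine ⟨x, ?_, h4, ?_, ?_⟩
  · by_contra hx0
    apply hd
    apply hpsd
    intro i
    by_contra hi
    have : 0 < Fintype.card {i // ¬ 0 < μ i} := Fintype.card_pos_iff.2 ⟨⟨i, hi⟩⟩
    omega
  · have a1 := finrank_up_le Ep
    rw [hfp] at a1
    omega
  · intro h L hh hL
    -- `L₊`
    let Q : (Fin n → ℂ) →ₗ[ℂ] Pol n :=
      (LinearMap.mulLeft ℂ h).comp (Pool.Agent.W2helper19.SOS.lfL n)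
    have hQ : Function.Injective Q := fun a b hab =>
      Pool.Agent.W2helper19.SOS.lf_injective (mul_left_cancel₀ hh hab)
    let Lp : Submodule ℂ (Fin n → ℂ) := L ⊓ Ep.comap Q
    have hLp : ∀ w ∈ Lp, h * lf w ∈ Ep := fun w hw => hw.2
    have a1 := starSyz n Ep inferInstance h Lp hh hLp
    have a2 : Module.finrank ℂ L ≤ Module.finrank ℂ Lp + x := by
      have b1 : Module.finrank ℂ (L.map Q) = Module.finrank ℂ L :=
        (LinearEquiv.finrank_eq (Submodule.equivMapOfInjective Q hQ L)).symm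
      have b2 : L.map Q ≤ d.E := by
        rintro _ ⟨w, hw, rfl⟩
        exact hL w hw
      have b3 := Submodule.finrank_sup_add_finrank_inf_eq (L.map Q) Ep
      have b4 : Module.finrank ℂ ↥(L.map Q ⊔ Ep) ≤ r := by
        rw [← finrank_E d]
        exact Submodule.finrank_mono (sup_le b2 hEp)
      have b5 : L.map Q ⊓ Ep ≤ Lp.map Q := by
        rintro y ⟨⟨w, hw, rfl⟩, hy⟩
        exact ⟨w, ⟨hw, hy⟩, rfl⟩
      have b6 := (Submodule.finrank_mono b5).trans (Submodule.finrank_map_le Q Lp)
      rw [hfp, b1] at b3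
      omega
    have a3 : (Module.finrank ℂ L - x) * (Module.finrank ℂ L - x - 1) / 2 ≤
        Module.finrank ℂ Lp * (Module.finrank ℂ Lp - 1) / 2 :=
      Nat.div_le_div_right (Nat.mul_le_mul (by omega) (by omega))
    rw [hfp] at a1
    omega

/-! ### restrictions -/

lemma step0 {n j : ℕ} (E : Submodule ℂ (Pol n))
    (T : Matrix (Fin n) (Fin (j + 1)) ℂ) (u : Fin n → ℂ)
    (hu : res T (lf u) = X (Fin.last j)) (e : Pol n) (he : e ∈ E) :
    X (Fin.last j) * res T e ∈ rs (up E) T ⊓ LinearMap.ker (res (emb j (j + 1))).toLinearMap := by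
  refine Submodule.mem_inf.2 ⟨?_, ?_⟩
  · refine Pool.Agent.W2helper19.SOS.mem_rs.2 ⟨lf u * e, ?_, ?_⟩
    · rw [lf, Finset.sum_mul]
      refine Submodule.sum_mem _ fun k _ => ?_
      rw [mul_assoc, ← smul_eq_C_mul]
      exact Submodule.smul_mem _ _ (X_mul_mem_up k he)
    · rw [map_mul, hu]
  · rw [LinearMap.mem_ker, AlgHom.toLinearMap_apply, map_mul,
        Pool.Agent.W2helper19.SOS.res_emb_last, zero_mul]

lemma step1 {n j : ℕ} (E : Submodule ℂ (Pol n))
    (T : Matrix (Fin n) (Fin (j + 1)) ℂ) (u : Fin n → ℂ)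
    (hu : res T (lf u) = X (Fin.last j)) : (rs E T).map (LinearMap.mulLeft ℂ (X (Fin.last j))) ≤
      rs (up E) T ⊓ LinearMap.ker (res (emb j (j + 1))).toLinearMap := by
  rw [Submodule.map_le_iff_le_comap]
  intro q hq
  rw [Pool.Agent.W2helper19.SOS.mem_rs] at hq
  obtain ⟨e, he, h⟩ := hq
  rw [← h]
  exact step0 E T u hu e he

lemma step {n j : ℕ} (E : Submodule ℂ (Pol n)) [Module.Finite ℂ E]
    (T : Matrix (Fin n) (Fin (j + 1)) ℂ) (u : Fin n → ℂ)
    (hu : res T (lf u) = X (Fin.last j)) :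
    rk (up E) (T * emb j (j + 1)) + rk E T ≤ rk (up E) T := by
  have hY := up_finite E
  have h2 := Pool.Agent.W2helper19.SOS.finrank_ker_add (rs (up E) T) (emb j (j + 1))
  have h4 := Submodule.finrank_mono (step1 E T u hu)
  rw [Pool.Agent.W2helper19.SOS.finrank_map_mulLeft _ (X_ne_zero _)] at h4
  rw [Pool.Agent.W2helper19.SOS.rk_mul]
  have h5 : rk E T = Module.finrank ℂ (rs E T) := rfl
  have h6 : rk (up E) T = Module.finrank ℂ (rs (up E) T) := rfl
  rw [h5, h6, ← h2, add_comm]
  exact Nat.add_le_add_right h4 _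

/-- (P6d) -/
theorem upDim : UpDim := by
  intro n E hE
  have hB1 := Pool.Agent.W2helper12.SOS.pB1
  have hY := up_finite E
  obtain ⟨T, hT⟩ := Pool.Agent.W2helper12.SOS.pB3 n n (n + 1)
    (Fin.lastCases (Pool.Agent.W2helper19.SOS.LF n) (fun _ => E))
    (Fin.lastCases n (fun i : Fin n => (i : ℕ) + 1))
    (by
      intro i
      refine Fin.lastCases ?_ (fun i => ?_) i
      · rw [Fin.lastCases_last]; infer_instance
      · rw [Fin.lastCases_castSucc]; exact hE)
    (by
      intro i
      refine Fin.lastCases ?_ (fun i => ?_) i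
      · rw [Fin.lastCases_last]
      · rw [Fin.lastCases_castSucc]; exact i.2)
  have hTE : ∀ j, j < n → rk E (T * emb (j + 1) n) = mx E (j + 1) := by
    intro j hj
    have := hT (Fin.castSucc ⟨j, hj⟩)
    rwa [Fin.lastCases_castSucc, Fin.lastCases_castSucc] at this
  have hTr : T.rank = n := by
    have := hT (Fin.last n)
    rw [Fin.lastCases_last, Fin.lastCases_last, Pool.Agent.W2helper19.SOS.emb_self,
      Matrix.mul_one, Pool.Agent.W2helper19.SOS.rk_LF,
      Pool.Agent.W2helper19.SOS.mx_LF hB1 le_rfl] at this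
    exact this
  have hsurj : ∀ v : Fin n → ℂ, ∃ u, Matrix.vecMul u T = v := by
    have htop : LinearMap.range T.vecMulLinear = ⊤ := by
      apply Submodule.eq_top_of_finrank_eq
      rw [← Matrix.mulVecLin_transpose]
      have := Matrix.rank_transpose T
      rw [hTr, Matrix.rank] at this
      rw [this, Module.finrank_fin_fun]
    intro v
    have : v ∈ LinearMap.range T.vecMulLinear := by rw [htop]; trivial
    exact this
  have key : ∀ j, j ≤ n → ∑ i ∈ Finset.range j, mx E (i + 1) ≤ rk (up E) (T * emb j n) := by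
    intro j
    induction j with
    | zero => intro _; simp
    | succ j ih =>
      intro hj
      rw [Finset.sum_range_succ, ← hTE j (by omega)]
      refine (Nat.add_le_add_right (ih (by omega)) _).trans ?_
      -- `z_last` is the restriction of a linear form
      obtain ⟨u, hu⟩ := hsurj (Pi.single ⟨j, by omega⟩ 1)
      have h5 : res (T * emb (j + 1) n) (lf u) = X (Fin.last j) := by
        rw [Pool.Agent.W2helper19.SOS.res_lf, ← Matrix.vecMul_vecMul, hu,
          Matrix.single_one_vecMul, ← Pool.Agent.W2helper19.SOS.lf_single]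
        congr 1
        funext b
        simp only [Matrix.row_apply, emb, Pi.single_apply, Fin.ext_iff, Fin.val_last]
        congr 1
        exact propext eq_comm
      have h6 := step E (T * emb (j + 1) n) u h5
      rwa [Matrix.mul_assoc, Pool.Agent.W2helper19.SOS.emb_mul (Nat.le_succ j)] at h6
  have h1 := key n le_rfl
  have h2 := (hB1 n (up E) hY).2.1 n (T * emb n n)
  have h3 := (hB1 n (up E) hY).2.2.1 n
  exact h1.trans (h2.trans h3)

end Pool.Agent.W2helper5.SOS
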