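import Pool.Agent.W2helper74.SOS.Stm4
import Pool.Agent.W2helper18.SOS.J9b

/-!
# Project S1FULL (`MP_ce7760_an`), piece P1 : existence
-/

set_option autoImplicit false

open MvPolynomial

namespace Pool.Agent.W2helper5.SOS

open Pool.Agent.W2helper74.SOS Pool.Agent.W2helper18.SOS

/-- the exponent of a variable -/
def ee {n : ℕ} (i : Fin n) : Fin n → ℕ := Pi.single i 1

lemma ee_self {n : ℕ} (i : Fin n) : ee i i = 1 := by simp [ee]

lemma ee_ne {n : ℕ} {i j : Fin n} (h : j ≠ i) : ee i j = 0 := by simp [ee, h]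

lemma ee_inj {n : ℕ} {i j : Fin n} (h : ee i = ee j) : i = j := by
  by_contra h1
  have h2 := congrFun h i
  rw [ee_self, ee_ne h1] at h2
  exact absurd h2 one_ne_zero

/-- the exponents `e_x + e_i + e_k`, `i ∈ S` -/
def TT {n : ℕ} (x : Fin n) (S : Finset (Fin n)) : Finset (Fin n → ℕ) :=
  (S ×ˢ Finset.univ).image (fun p => ee x + ee p.1 + ee p.2)

lemma mem_TT {n : ℕ} {x : Fin n} {S : Finset (Fin n)} {f : Fin n → ℕ} :
    f ∈ TT x S ↔ ∃ i ∈ S, ∃ k, ee x + ee i + ee k = f := by
  unfold TT
  simp only [Finset.mem_image, Finset.mem_product, Finset.mem_univ, and_true, Prod.exists]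
  constructor
  · rintro ⟨i, k, hi, h⟩
    exact ⟨i, hi, k, h⟩
  · rintro ⟨i, hi, k, h⟩
    exact ⟨i, k, hi, h⟩

/-- two exponents are the same -/
lemma ee_pair {n : ℕ} {i k i' k' : Fin n} (h : ee i + ee k = ee i' + ee k') :
    (i = i' ∧ k = k') ∨ (i = k' ∧ k = i') := by
  by_cases h1 : i = i'
  · subst h1
    exact Or.inl ⟨rfl, ee_inj (add_left_cancel h)⟩
  · by_cases h2 : i = k'
    · subst h2
      right
      refine ⟨rfl, ee_inj ?_⟩
      rw [add_comm (ee i')] at h
      exact add_left_cancel h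
    · exfalso
      have h3 := congrFun h i
      simp only [Pi.add_apply, ee_self] at h3
      rw [ee_ne h1, ee_ne h2] at h3
      omega

lemma card_TT {n : ℕ} (x : Fin n) (S : Finset (Fin n)) :
    (TT x S).card + (n - S.card + 1).choose 2 = (n + 1).choose 2 := by
  classical
  have h1 : (TT x S).card = ((Sᶜ).sym2ᶜ).card := by
    symm
    refine Finset.card_bij (fun q _ => Sym2.lift ⟨fun i k => ee x + (ee i + ee k),
      fun i k => by
        change ee x + (ee i + ee k) = ee x + (ee k + ee i)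
        rw [add_comm (ee i)]⟩ q) ?_ ?_ ?_
    · intro q
      induction q using Sym2.ind with
      | _ i k =>
        intro hq
        rw [Finset.mem_compl, Finset.mk_mem_sym2_iff, Finset.mem_compl, Finset.mem_compl] at hq
        simp only [Sym2.lift_mk]
        rw [mem_TT]
        by_cases hi : i ∈ S
        · exact ⟨i, hi, k, by rw [add_assoc]⟩
        · have hk : k ∈ S := by tauto
          exact ⟨k, hk, i, by rw [add_assoc, add_comm (ee k)]⟩
    · intro q hq q' hq' h
      induction q using Sym2.ind with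
      | _ i k =>
        induction q' using Sym2.ind with
        | _ i' k' =>
          simp only [Sym2.lift_mk] at h
          have h2 := ee_pair (add_left_cancel h)
          rw [Sym2.eq_iff]
          exact h2
    · intro f hf
      rw [mem_TT] at hf
      obtain ⟨i, hi, k, rfl⟩ := hf
      refine ⟨s(i, k), ?_, ?_⟩
      · rw [Finset.mem_compl, Finset.mk_mem_sym2_iff, Finset.mem_compl]
        tauto
      · simp only [Sym2.lift_mk]
        rw [add_assoc]
  rw [h1, Finset.card_compl, Finset.card_sym2, Finset.card_compl, Fintype.card_fin,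
    Sym2.card, Fintype.card_fin]
  have h2 : (n - S.card + 1).choose 2 ≤ (n + 1).choose 2 :=
    Nat.choose_le_choose 2 (by omega)
  omega

lemma choose_two' (k : ℕ) : 2 * (k + 1).choose 2 = (k + 1) * k := by
  rw [Nat.choose_two_right, Nat.add_sub_cancel]
  exact Nat.two_mul_div_two_of_even (by rw [mul_comm]; exact Nat.even_mul_succ_self k)

/-- twice the binomial coefficient -/
lemma two_tri (k : ℕ) : 2 * (k * (k - 1) / 2) = k * (k - 1) := by
  apply Nat.two_mul_div_two_of_even
  rcases k with _ | k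
  · simp
  · rw [Nat.add_sub_cancel, mul_comm]
    exact Nat.even_mul_succ_self k

lemma card_TT' {n : ℕ} (x : Fin n) (S : Finset (Fin n)) :
    (TT x S).card + S.card * (S.card - 1) / 2 = n * S.card := by
  have h1 := card_TT x S
  have h2 := choose_two' n
  have h3 := choose_two' (n - S.card)
  have h4 := two_tri S.card
  have h5 : S.card ≤ n := by
    have := Finset.card_le_univ S
    rwa [Fintype.card_fin] at this
  generalize (TT x S).card = T at *
  generalize S.card = s at *
  obtain ⟨u, rfl⟩ := Nat.exists_eq_add_of_le h5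
  have h6 : s + u - s = u := by omega
  rw [h6] at h1 h3
  rcases Nat.eq_zero_or_pos s with h7 | h7
  · subst h7
    simp only [Nat.zero_add] at h1
    simp only [Nat.zero_mul, Nat.zero_div, Nat.add_zero, Nat.mul_zero]
    omega
  · obtain ⟨v, rfl⟩ : ∃ v, s = v + 1 := ⟨s - 1, by omega⟩
    rw [Nat.add_sub_cancel] at h4 ⊢
    nlinarith

lemma TT_eq {n : ℕ} (x : Fin n) (S : Finset (Fin n)) :
    shift (S.image fun i => ee x + ee i) = TT x S := by
  classical
  ext f
  rw [mem_TT]
  unfold shift
  simp only [Finset.mem_image, Finset.mem_product, Finset.mem_univ, and_true, Prod.exists]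
  constructor
  · rintro ⟨g, k, ⟨i, hi, rfl⟩, rfl⟩
    exact ⟨i, hi, k, rfl⟩
  · rintro ⟨i, hi, k, rfl⟩
    exact ⟨_, k, ⟨i, hi, rfl⟩, rfl⟩

lemma shift_union {n : ℕ} (G H : Finset (Fin n → ℕ)) : shift (G ∪ H) = shift G ∪ shift H := by
  unfold shift
  rw [Finset.union_product, Finset.image_union]

lemma inter_TT {n : ℕ} {x y : Fin n} (hxy : x ≠ y) {S S' : Finset (Fin n)} (hy : y ∉ S)
    (hx : x ∉ S') : (TT x S ∩ TT y S').card = (S ∩ S').card := by
  classical
  have h1 : TT x S ∩ TT y S' = (S ∩ S').image (fun i => ee x + ee i + ee y) := by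
    ext f
    rw [Finset.mem_inter, mem_TT, mem_TT, Finset.mem_image]
    constructor
    · rintro ⟨⟨i, hi, k, h2⟩, ⟨j, hj, l, h3⟩⟩
      have hiy : i ≠ y := fun h => hy (h ▸ hi)
      have hjx : j ≠ x := fun h => hx (h ▸ hj)
      have h4 : ee x + ee i + ee k = ee y + ee j + ee l := h2.trans h3.symm
      have h5 := congrFun h4 y
      have h6 := congrFun h4 x
      simp only [Pi.add_apply, ee_self] at h5 h6
      rw [ee_ne hxy.symm, ee_ne hiy.symm] at h5
      rw [ee_ne hxy, ee_ne hjx.symm] at h6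
      have h7 : k = y := by
        by_contra h8
        rw [ee_ne (Ne.symm h8)] at h5
        omega
      have h8 : l = x := by
        by_contra h9
        rw [ee_ne (Ne.symm h9)] at h6
        omega
      subst h7 h8
      have h9 : i = j := by
        apply ee_inj
        have h10 : ee l + ee k + ee i = ee l + ee k + ee j := by
          rw [add_right_comm, h4, add_assoc (ee k), add_comm (ee j), ← add_assoc,
            add_comm (ee k)]
        exact add_left_cancel h10
      subst h9
      exact ⟨i, Finset.mem_inter.2 ⟨hi, hj⟩, h2⟩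
    · rintro ⟨i, hi, rfl⟩
      rw [Finset.mem_inter] at hi
      exact ⟨⟨i, hi.1, y, rfl⟩, ⟨i, hi.2, x, by abel⟩⟩
  rw [h1, Finset.card_image_of_injective]
  intro i j h
  exact ee_inj (add_left_cancel (add_right_cancel h))

/-- subsets of `Fin n` -/
lemma card_fin_filter (n : ℕ) (P : ℕ → Prop) [DecidablePred P] :
    (Finset.univ.filter fun i : Fin n => P i).card = ((Finset.range n).filter P).card := by
  classical
  rw [← Finset.card_image_of_injective _ Fin.val_injective]
  congr 1
  ext i
  simp only [Finset.mem_image, Finset.mem_filter, Finset.mem_univ, true_and, Finset.mem_range]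
  constructor
  · rintro ⟨j, hj, rfl⟩
    exact ⟨j.2, hj⟩
  · rintro ⟨h1, h2⟩
    exact ⟨⟨i, h1⟩, h2, rfl⟩

/-- **Double stars.** -/
lemma ds {n a b c : ℕ} (hb : 1 ≤ b) (hba : b ≤ a) (hc : c + 1 ≤ b) (hab : a + b ≤ n + 1) :
    ∃ m ∈ S1 n, m + (a * (a - 1) / 2 + (b - 1) * (b - 1 - 1) / 2 + c) = n * (a + b - 1) := by
  classical
  have hn : 0 < n := by omega
  obtain ⟨S, hS⟩ : ∃ S : Finset (Fin n), S = Finset.univ.filter fun i : Fin n => (i : ℕ) < a :=
    ⟨_, rfl⟩
  have hScard : S.card = a := by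
    rw [hS, card_fin_filter n (fun i => i < a)]
    have : (Finset.range n).filter (fun i => i < a) = Finset.range a := by
      ext i
      simp only [Finset.mem_filter, Finset.mem_range]
      omega
    rw [this, Finset.card_range]
  rcases Nat.eq_or_lt_of_le hb with hb1 | hb1
  · -- one star
    subst hb1
    have hc0 : c = 0 := by omega
    subst hc0
    refine ⟨(TT ⟨0, hn⟩ S).card, ?_, ?_⟩
    · rw [← TT_eq]
      exact shift_mem _
    · have h1 := card_TT' ⟨0, hn⟩ S
      rw [hScard] at h1
      simp only [Nat.sub_self, Nat.zero_mul, Nat.zero_div, Nat.add_zero, Nat.add_sub_cancel]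
      exact h1
  · -- two stars
    obtain ⟨S', hS'⟩ : ∃ S' : Finset (Fin n), S' = Finset.univ.filter fun i : Fin n =>
      ((1 ≤ (i : ℕ) ∧ (i : ℕ) ≤ c) ∨ (a ≤ (i : ℕ) ∧ (i : ℕ) < a + (b - 1 - c))) := ⟨_, rfl⟩
    have hS'card : S'.card = b - 1 := by
      rw [hS', card_fin_filter n (fun i => (1 ≤ i ∧ i ≤ c) ∨ (a ≤ i ∧ i < a + (b - 1 - c)))]
      have : (Finset.range n).filter (fun i => (1 ≤ i ∧ i ≤ c) ∨ (a ≤ i ∧ i < a + (b - 1 - c))) =
          Finset.Icc 1 c ∪ Finset.Ico a (a + (b - 1 - c)) := by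
        ext i
        simp only [Finset.mem_filter, Finset.mem_range, Finset.mem_union, Finset.mem_Icc,
          Finset.mem_Ico]
        omega
      rw [this, Finset.card_union_of_disjoint, Nat.card_Icc, Nat.card_Ico]
      · omega
      · rw [Finset.disjoint_left]
        intro i h1 h2
        rw [Finset.mem_Icc] at h1
        rw [Finset.mem_Ico] at h2
        omega
    have hSS' : (S ∩ S').card = c := by
      have h0 : S ∩ S' = Finset.univ.filter fun i : Fin n => (1 ≤ (i : ℕ) ∧ (i : ℕ) ≤ c) := by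
        ext i
        rw [hS, hS']
        simp only [Finset.mem_inter, Finset.mem_filter, Finset.mem_univ, true_and]
        omega
      rw [h0, card_fin_filter n (fun i => 1 ≤ i ∧ i ≤ c)]
      have : (Finset.range n).filter (fun i => 1 ≤ i ∧ i ≤ c) = Finset.Icc 1 c := by
        ext i
        simp only [Finset.mem_filter, Finset.mem_range, Finset.mem_Icc]
        omega
      rw [this, Nat.card_Icc]
      omega
    obtain ⟨x, hx⟩ : ∃ x : Fin n, (x : ℕ) = 0 := ⟨⟨0, hn⟩, rfl⟩
    obtain ⟨y, hy⟩ : ∃ y : Fin n, (y : ℕ) = n - 1 := ⟨⟨n - 1, by omega⟩, rfl⟩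
    have hxy : x ≠ y := by
      intro h
      rw [h] at hx
      omega
    have hyS : y ∉ S := by
      rw [hS, Finset.mem_filter]
      omega
    have hxS' : x ∉ S' := by
      rw [hS', Finset.mem_filter]
      omega
    refine ⟨(TT x S ∪ TT y S').card, ?_, ?_⟩
    · rw [← TT_eq, ← TT_eq, ← shift_union]
      exact shift_mem _
    · have h1 := card_TT' x S
      have h2 := card_TT' y S'
      have h3 := Finset.card_union_add_card_inter (TT x S) (TT y S')
      rw [inter_TT hxy hyS hxS', hSS'] at h3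
      rw [hScard] at h1
      rw [hS'card] at h2
      have h4 : n * (a + b - 1) = n * a + n * (b - 1) := by
        rw [← Nat.mul_add]
        congr 1
        omega
      rw [h4]
      omega

lemma mul_mem {n : ℕ} (hn : 1 ≤ n) (t : ℕ) : n * t ∈ S1 n := by
  induction t with
  | zero => exact zero_mem n
  | succ t ih => exact add_mem hn ih (self_mem hn)

/-- the deficit is a sum -/
lemma of_abc {n m r s a b c : ℕ} (hb : 1 ≤ b) (hba : b ≤ a) (hc : c + 1 ≤ b)
    (hab : a + b ≤ r + 1) (hr : r ≤ n)
    (hs : s = a * (a - 1) / 2 + (b - 1) * (b - 1 - 1) / 2 + c) (hm : m + s = n * r) :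
    m ∈ S1 n := by
  obtain ⟨m', hm', h1⟩ := ds (n := n) hb hba hc (by omega)
  have hn : 1 ≤ n := by omega
  have h2 : m = m' + n * (r + 1 - a - b) := by
    have h3 : n * r = n * (a + b - 1) + n * (r + 1 - a - b) := by
      rw [← Nat.mul_add]
      congr 1
      omega
    rw [← hs] at h1
    omega
  rw [h2]
  exact add_mem hn hm' (mul_mem hn _)

/-- triangular numbers -/
lemma exists_tri {t B : ℕ} (hB : 1 ≤ B) (ht : t ≤ B * (B - 1) / 2) :
    ∃ b c, 1 ≤ b ∧ b ≤ B ∧ c + 1 ≤ b ∧ t = (b - 1) * (b - 1 - 1) / 2 + c := by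
  classical
  have hex : ∃ b, 1 ≤ b ∧ t ≤ b * (b - 1) / 2 := ⟨B, hB, ht⟩
  obtain ⟨b, hb⟩ : ∃ b, b = Nat.find hex := ⟨_, rfl⟩
  have h1 := Nat.find_spec hex
  rw [← hb] at h1
  have h2 : b ≤ B := by
    rw [hb]
    exact Nat.find_min' hex ⟨hB, ht⟩
  obtain ⟨k, hk⟩ : ∃ k, b = k + 1 := ⟨b - 1, by omega⟩
  have h3 : k * (k - 1) / 2 ≤ t := by
    rcases Nat.eq_zero_or_pos k with hk0 | hk0
    · subst hk0
      simp
    · by_contra h4
      push Not at h4
      have h5 := Nat.find_min hex (m := k) (by omega)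
      exact h5 ⟨hk0, h4.le⟩
  refine ⟨b, t - k * (k - 1) / 2, h1.1, h2, ?_, ?_⟩
  · have h4 := two_tri k
    have h5 := two_tri (k + 1)
    rw [Nat.add_sub_cancel] at h5
    rw [hk, Nat.add_sub_cancel] at h1
    rw [hk]
    rcases Nat.eq_zero_or_pos k with hk0 | hk0
    · subst hk0
      simp only [Nat.zero_add, Nat.mul_zero, Nat.zero_div, Nat.le_zero_eq] at h1 ⊢
      omega
    · obtain ⟨l, rfl⟩ : ∃ l, k = l + 1 := ⟨k - 1, by omega⟩
      rw [Nat.add_sub_cancel] at h3 h4 ⊢
      have h6 : 2 * t ≤ (l + 1 + 1) * (l + 1) := by omega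
      have h7 : 2 * (t - (l + 1) * l / 2) = 2 * t - (l + 1) * l := by omega
      have h8 : (l + 1 + 1) * (l + 1) = (l + 1) * l + 2 * (l + 1) := by ring
      omega
  · rw [hk, Nat.add_sub_cancel]
    omega

lemma interval {n m r s a : ℕ} (hr : r ≤ n) (hm : m + s = n * r) (ha : a ≤ r)
    (har : r + 1 ≤ 2 * a) (h1 : a * (a - 1) / 2 ≤ s)
    (h2 : s ≤ a * (a - 1) / 2 + (r + 1 - a) * (r - a) / 2) : m ∈ S1 n := by
  obtain ⟨b, c, hb, hbB, hc, ht⟩ := exists_tri (t := s - a * (a - 1) / 2) (B := r + 1 - a)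
    (by omega) (by
      have : r + 1 - a - 1 = r - a := by omega
      rw [this]
      omega)
  exact of_abc (a := a) hb (by omega) hc (by omega) hr (by omega) hm

lemma small {n m r s : ℕ} (hr : r ≤ n) (hm : m + s = n * r) (hs : s ≤ r * r / 4) : m ∈ S1 n := by
  classical
  rcases Nat.eq_zero_or_pos r with h0 | h0
  · subst h0
    have : m = 0 := by
      rw [Nat.mul_zero] at hm
      omega
    rw [this]
    exact zero_mem n
  · have hs4 : 4 * s ≤ r * r := by omega
    -- the largest `a` with `C(a,2) ≤ s`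
    have hP : 1 * (1 - 1) / 2 ≤ s := by simp
    obtain ⟨a, haa⟩ : ∃ a, a = Nat.findGreatest (fun a => a * (a - 1) / 2 ≤ s) (r + 1) := ⟨_, rfl⟩
    have ha1 : 1 ≤ a := by
      rw [haa]
      exact Nat.le_findGreatest (by omega) hP
    have ha2 : a * (a - 1) / 2 ≤ s := by
      rw [haa]
      exact Nat.findGreatest_spec (P := fun a => a * (a - 1) / 2 ≤ s) (m := 1) (by omega) hP
    obtain ⟨k, rfl⟩ : ∃ k, a = k + 1 := ⟨a - 1, by omega⟩
    have h4 := two_tri (k + 1)
    rw [Nat.add_sub_cancel] at h4 ha2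
    have har : k + 1 ≤ r := by
      by_contra h5
      push Not at h5
      have h6 : (k + 1) * k ≤ 2 * s := by omega
      have h7 : (r + 1) * r ≤ (k + 1) * k := Nat.mul_le_mul h5 (by omega)
      nlinarith
    have ha3 : s < (k + 1 + 1) * (k + 1) / 2 := by
      by_contra h5
      push Not at h5
      have h6 : k + 1 + 1 ≤ Nat.findGreatest (fun a => a * (a - 1) / 2 ≤ s) (r + 1) :=
        Nat.le_findGreatest (by omega) (by simpa using h5)
      omega
    have h5 := two_tri (k + 1 + 1)
    rw [Nat.add_sub_cancel] at h5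
    rcases Nat.lt_or_ge r (2 * (k + 1)) with h6 | h6
    · refine interval hr hm har (by omega) (by rw [Nat.add_sub_cancel]; exact ha2) ?_
      rw [Nat.add_sub_cancel]
      obtain ⟨u, hu⟩ := Nat.exists_eq_add_of_le har
      have h7 : r + 1 - (k + 1) = u + 1 := by omega
      have h8 : r - (k + 1) = u := by omega
      rw [h7, h8]
      have h9 := two_tri (u + 1)
      rw [Nat.add_sub_cancel] at h9
      -- `4 s ≤ r²` and `4 (C + C') = r² - 1 + w²`, `w = k - u`
      obtain ⟨w, hw⟩ := Nat.exists_eq_add_of_le (show u ≤ k by omega)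
      have h10 : 2 * ((k + 1) * k) + 2 * ((u + 1) * u) + 1 = r * r + w * w := by
        rw [hu, hw]
        ring
      have h11 : r = 2 * u + w + 1 := by omega
      rcases Nat.even_or_odd' w with ⟨v, hv | hv⟩
      · have h12 : r * r = 4 * ((u + v) * (u + v + 1)) + 1 := by
          rw [h11, hv]
          ring
        omega
      · have h12 : w * w = 4 * (v * v + v) + 1 := by
          rw [hv]
          ring
        omega
    · obtain ⟨b, c, hb, hbB, hc, ht⟩ := exists_tri (t := s - (k + 1) * k / 2) (B := k + 1)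
        (by omega) (by
          rw [Nat.add_sub_cancel]
          have h7 : (k + 1 + 1) * (k + 1) = (k + 1) * k + 2 * (k + 1) := by ring
          rcases Nat.eq_zero_or_pos k with hk | hk
          · subst hk
            simp only [Nat.zero_add, Nat.mul_zero, Nat.zero_div] at *
            omega
          · have h8 : 2 * k ≤ (k + 1) * k := by nlinarith
            omega)
      refine of_abc hb hbB hc (by omega) hr ?_ hm
      rw [Nat.add_sub_cancel]
      omega

/-- **(P1)** -/
theorem exi : Exi := by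
  rintro n m hn (h | ⟨r, s, hr, hm, h | ⟨a, ha, h1, h2, h3⟩⟩)
  · have h3 : n ≤ n * n := Nat.le_mul_self n
    refine from_block hn (n * n - n + 1) (fun m h1 h2 => ?_) m (by omega)
    refine small (r := n) (s := n * n - m) le_rfl (by omega) ?_
    have h4 : 4 * (n - 1) ≤ n * n := by
      obtain ⟨k, rfl⟩ : ∃ k, n = k + 1 := ⟨n - 1, by omega⟩
      rw [Nat.add_sub_cancel]
      nlinarith [sq_nonneg ((k : ℤ) - 1), Nat.zero_le k, mul_self_nonneg ((k : ℤ) - 1)]
    omega
  · exact small hr hm h
  · exact interval hr hm ha h1 h2 h3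

end Pool.Agent.W2helper5.SOS
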